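import Mathlib
import Pool.Agent.H790R2.TipMain

set_option autoImplicit false

open Set Filter Topology Complex Metric
open Pool.Agent.H790R2.Tip

namespace Pool.Agent.Results.MP_2e7b1e_an.FixedSector

/-- The set of all tip positions `φ_f` (normalisation `f (-1) = ∞`) of functions `f ∈ S` whose
omitted set is a slit contained in the sector with vertex at the tip `ω₀ = γ 0` formed by the
directions whose oriented angle with the radial direction `ω₀` lies in `[a, b]`. -/
def tips (a b : ℝ) : Set ℝ :=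
  {φ | -Real.pi < φ ∧ φ < Real.pi ∧ ∃ (f : ℂ → ℂ) (γ : ℝ → ℂ), IsSlitMap f γ ∧ InCone a b γ ∧
    HasTipAt f (γ 0) φ}

/-- If the closed sector `[a, b]` of directions does not contain the direction towards the origin,
then the tip positions fill exactly the interval `[-b, -a]`. -/
theorem result (a b : ℝ) (ha : -Real.pi < a) (hab : a ≤ b) (hb : b < Real.pi) :
    tips a b = Icc (-b) (-a) := by
  ext φ
  constructor
  · rintro ⟨h1, h2, f, γ, hf, hγ, ht⟩
    exact tip_mem hf hγ ha hab hb h1 h2 ht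
  · rintro ⟨h1, h2⟩
    have hφ1 : -Real.pi < φ := by linarith
    have hφ2 : φ < Real.pi := by linarith
    obtain ⟨ψ, hψφ⟩ : ∃ ψ, ψ = φ / 2 := ⟨_, rfl⟩
    have hφψ : φ = 2 * ψ := by linarith
    have hψ : 0 < Real.cos ψ := Real.cos_pos_of_mem_Ioo ⟨by linarith, by linarith⟩
    refine ⟨hφ1, hφ2, hl ψ, γhl ψ, hl_isSlitMap hψ, ?_, by rw [hφψ]; exact hl_hasTipAt hψ⟩
    rintro ω ⟨t, ht, rfl⟩ -
    have ht' : 0 ≤ t := ht
    refine ⟨-φ, ⟨by linarith, by linarith⟩, ?_⟩
    have h4 : (4 * (Real.cos ψ : ℂ)) ≠ 0 := mul_ne_zero (by norm_num) (cos_ne hψ)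
    have e1 : (γhl ψ t - γhl ψ 0) / γhl ψ 0 = ((4 * Real.cos ψ * t : ℝ) : ℂ) * exp ((-φ : ℝ) * I) := by
      have e2 : exp ((-φ : ℝ) * I) = ee (-ψ) * ee (-ψ) := by
        unfold ee
        rw [← exp_add, hφψ]; congr 1; push_cast; ring
      rw [γhl_sub, γhl_zero, e2, div_div_eq_mul_div, div_eq_iff (ee_ne _)]
      simp only [ofReal_mul, ofReal_ofNat]
      linear_combination (-4 * Real.cos ψ * t * ee (-ψ)) * ee_mul ψ
    rw [e1, norm_mul, norm_exp_ofReal_mul_I, mul_one, norm_real, Real.norm_eq_abs,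
      abs_of_nonneg (by positivity)]

end Pool.Agent.Results.MP_2e7b1e_an.FixedSector
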