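import Mathlib
import Pool.Agent.H790R2.TipHalf

set_option autoImplicit false

open Set Filter Topology Complex Metric
open Pool.Agent.H790R2.Tip

namespace Pool.Agent.Results.MP_2e7b1e_an.TipSector

/-- The slit `γ` lies in a closed infinite sector with vertex at its tip `γ 0` and opening angle
`α π`. -/
def InSector (α : ℝ) (γ : ℝ → ℂ) : Prop :=
  ∃ θ₀ : ℝ, ∀ ω ∈ γ '' Ici 0, ω ≠ γ 0 →
    ∃ θ ∈ Icc θ₀ (θ₀ + α * Real.pi), ω - γ 0 = ‖ω - γ 0‖ * exp (θ * I)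

/-- The set of all `|φ_f|`, `f ∈ Σ_α`, `f (-1) = ∞`. -/
def tipSet (α : ℝ) : Set ℝ :=
  {x | ∃ (f : ℂ → ℂ) (γ : ℝ → ℂ) (φ : ℝ), IsSlitMap f γ ∧ InSector α γ ∧
    -Real.pi < φ ∧ φ < Real.pi ∧ HasTipAt f (γ 0) φ ∧ x = |φ|}

/-- For every opening angle `α π`, `0 < α ≤ 2`, the supremum of `|φ_f|` over `Σ_α` is `π`. -/
theorem result (α : ℝ) (h0 : 0 < α) (_h2 : α ≤ 2) : IsLUB (tipSet α) Real.pi := by
  have hpi := Real.pi_pos
  constructor
  · rintro x ⟨f, γ, φ, -, -, h1, h2, -, rfl⟩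
    exact (abs_lt.2 ⟨h1, h2⟩).le
  · intro b hb
    have key : ∀ ψ : ℝ, 0 ≤ ψ → ψ < Real.pi / 2 → 2 * ψ ≤ b := by
      intro ψ hψ0 hψ1
      have hψ : 0 < Real.cos ψ := Real.cos_pos_of_mem_Ioo ⟨by linarith, hψ1⟩
      apply hb
      refine ⟨hl ψ, γhl ψ, 2 * ψ, hl_isSlitMap hψ, ⟨-ψ, ?_⟩, by linarith, by linarith,
        hl_hasTipAt hψ, (abs_of_nonneg (by linarith)).symm⟩
      rintro ω ⟨t, ht, rfl⟩ -
      refine ⟨-ψ, ⟨le_rfl, by nlinarith⟩, ?_⟩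
      have ht' : 0 ≤ t := ht
      rw [γhl_sub, norm_mul, ee_norm, mul_one, norm_real, Real.norm_eq_abs, abs_of_nonneg ht']
      rfl
    by_contra hcon
    push Not at hcon
    have h3 := key (max 0 ((b + Real.pi) / 4)) (le_max_left _ _) (max_lt (by linarith) (by linarith))
    have h4 := le_max_right 0 ((b + Real.pi) / 4)
    linarith

end Pool.Agent.Results.MP_2e7b1e_an.TipSector
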